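import Mathlib

/-!
# The coloured Poisson process of intensity one on `ℝ ^ d`

Each cell `z + [0, 1) ^ d`, `z ∈ ℤ ^ d`, carries a Poisson number `N z` (mean `1`) of points, the
points with the indices `(z, 0), ..., (z, N z - 1)`; the point with index `(z, n)` is at
`z + U (z, n)` where `U (z, n)` is uniform in `[0, 1) ^ d`, and it is red with probability `p`,
independently of everything else.
-/

set_option autoImplicit false

open MeasureTheory ProbabilityTheory Set
open scoped NNReal ENNReal

namespace Pool.Agent.PPP

/-- indices of the (potential) points: cell and number -/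
abbrev Idx (d : ℕ) : Type := (Fin d → ℤ) × ℕ

/-- the unit cube `[0, 1) ^ d` -/
def cube (d : ℕ) : Set (EuclideanSpace ℝ (Fin d)) := {x | ∀ j, 0 ≤ x j ∧ x j < 1}

/-- the corner of a cell -/
noncomputable def corner {d : ℕ} (z : Fin d → ℤ) : EuclideanSpace ℝ (Fin d) :=
  WithLp.toLp 2 (fun j => (z j : ℝ))

/-- The homogeneous Poisson process of intensity one on `ℝ ^ d` with points independently red
with probability `p`, given by its restrictions to the unit cells: `N z` is the number of points
of the cell of `z`, `U (z, n)` the relative position of its `n`-th point and `red (z, n)` the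
colour. -/
structure IsColouredPoisson {Ω : Type*} [MeasurableSpace Ω] (P : Measure Ω) (d : ℕ) (p : ℝ)
    (N : (Fin d → ℤ) → Ω → ℕ) (U : Idx d → Ω → EuclideanSpace ℝ (Fin d))
    (red : Idx d → Ω → Bool) : Prop where
  measurable_count : ∀ z, Measurable (N z)
  measurable_U : ∀ i, Measurable (U i)
  measurable_red : ∀ i, Measurable (red i)
  law_count : ∀ z, P.map (N z) = poissonMeasure 1
  law_U : ∀ i, P.map (U i) = volume.restrict (cube d)
  law_red : ∀ i, P {ω | red i ω = true} = ENNReal.ofReal p
  indep_count : iIndepFun N P
  indep_mark : ∀ i, IndepFun (U i) (red i) P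
  indep_marks : iIndepFun (fun i ω => (U i ω, red i ω)) P
  indep : IndepFun (fun ω z => N z ω) (fun ω i => (U i ω, red i ω)) P

/-- position of the point with index `i` -/
noncomputable def pos {Ω : Type*} {d : ℕ} (U : Idx d → Ω → EuclideanSpace ℝ (Fin d))
    (i : Idx d) (ω : Ω) : EuclideanSpace ℝ (Fin d) := corner i.1 + U i ω

/-- the point with index `i` is present -/
def Present {Ω : Type*} {d : ℕ} (N : (Fin d → ℤ) → Ω → ℕ) (i : Idx d) (ω : Ω) : Prop :=
  i.2 < N i.1 ω

/-- law of a colour -/
noncomputable def bern (p : ℝ) : Measure Bool :=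
  ENNReal.ofReal p • Measure.dirac true + ENNReal.ofReal (1 - p) • Measure.dirac false

end Pool.Agent.PPP
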