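import Mathlib
import Pool.Agent.Lib_helper35.PPP.Defs

/-!
# The multivariate Campbell formula for the coloured Poisson process

For a measurable set `B` of `k`-tuples of coloured points, the expected number of `k`-tuples of
distinct points of the process in `B` is the measure of `B` for the `k`-fold power of
`volume ⊗ Bernoulli p`.
-/

set_option autoImplicit false
open MeasureTheory ProbabilityTheory Set
open scoped NNReal ENNReal

namespace Pool.Agent.PPP

/-- The factorial moments of the Poisson law of mean `1` are `1`. -/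
lemma lintegral_descFactorial (m : ℕ) :
    ∫⁻ n, ((n.descFactorial m : ℕ) : ℝ≥0∞) ∂(poissonMeasure 1) = 1 := by
  rw [MeasureTheory.lintegral_countable']
  have key : ∀ n : ℕ, (((n + m).descFactorial m : ℕ) : ℝ≥0∞) * poissonMeasure 1 {n + m}
      = poissonMeasure 1 {n} := by
    intro n
    rw [poissonMeasure_singleton, poissonMeasure_singleton]
    rw [← ENNReal.ofReal_natCast, ← ENNReal.ofReal_mul (by positivity)]
    congr 1
    have h1 : (n.factorial : ℝ) * ((n + m).descFactorial m : ℕ) = ((n + m).factorial : ℝ) := by
      have := Nat.factorial_mul_descFactorial (Nat.le_add_left m n)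
      rw [Nat.add_sub_cancel] at this
      exact_mod_cast this
    have h2 : (n.factorial : ℝ) ≠ 0 := by exact_mod_cast n.factorial_ne_zero
    have h3 : ((n + m).factorial : ℝ) ≠ 0 := by exact_mod_cast (n + m).factorial_ne_zero
    simp only [NNReal.coe_one, one_pow, mul_one]
    rw [mul_div_assoc', div_eq_div_iff h3 h2, ← h1]
    ring
  rw [← Summable.sum_add_tsum_nat_add' (k := m) ENNReal.summable]
  rw [Finset.sum_eq_zero, zero_add]
  · simp_rw [key]
    have := measure_univ (μ := poissonMeasure 1)
    rw [← this, ← MeasureTheory.lintegral_one, MeasureTheory.lintegral_countable']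
    simp
  · intro n hn
    rw [Nat.descFactorial_eq_zero_iff_lt.2 (Finset.mem_range.1 hn)]
    simp

/-- The choices of labels `n j < f (z j)` for which the pairs `(z j, n j)` are distinct. -/
def lab {J C : Type*} (z : J → C) (f : C → ℕ) : Set (J → ℕ) :=
  {n | Function.Injective (fun j => (z j, n j)) ∧ ∀ j, n j < f (z j)}

/-- the product decomposition of the labels -/
def labEquiv {J C : Type*} [Fintype J] [DecidableEq J] [DecidableEq C] (z : J → C) (f : C → ℕ) :
    lab z f ≃ ((c : (Finset.univ.image z : Finset C)) → ({j // z j = c.1} ↪ Fin (f c.1))) where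
  toFun n c := ⟨fun j => ⟨n.1 j.1, by
      have h := n.2.2 j.1
      rw [j.2] at h
      exact h⟩, by
      intro a b hab
      have h1 : n.1 a.1 = n.1 b.1 := by simpa using hab
      apply Subtype.ext
      apply n.2.1
      simp only [Prod.mk.injEq]
      exact ⟨a.2.trans b.2.symm, h1⟩⟩
  invFun g := ⟨fun j => (g ⟨z j, Finset.mem_image_of_mem _ (Finset.mem_univ j)⟩ ⟨j, rfl⟩ : ℕ), by
      constructor
      · intro a b hab
        simp only [Prod.mk.injEq] at hab
        obtain ⟨h1, h2⟩ := hab
        have h3 : ∀ (c : (Finset.univ.image z : Finset C)) (a b : {j // z j = c.1}),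
            (g c a : ℕ) = (g c b : ℕ) → a.1 = b.1 := by
          intro c a b h
          have := (g c).injective (Fin.ext h)
          rw [this]
        have h4 : (g ⟨z a, Finset.mem_image_of_mem _ (Finset.mem_univ a)⟩ ⟨a, rfl⟩ : ℕ)
            = (g ⟨z b, Finset.mem_image_of_mem _ (Finset.mem_univ b)⟩ ⟨a, h1⟩ : ℕ) := by
          have h5 : ∀ (c : (Finset.univ.image z : Finset C)) (hc : z a = c.1),
            (g ⟨z a, Finset.mem_image_of_mem _ (Finset.mem_univ a)⟩ ⟨a, rfl⟩ : ℕ)
            = (g c ⟨a, hc⟩ : ℕ) := by
            rintro ⟨c, hc⟩ hc'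
            simp only at hc'
            subst hc'
            rfl
          exact h5 ⟨z b, _⟩ h1
        rw [h4] at h2
        exact h3 _ _ _ h2
      · intro j
        exact (g _ _).2⟩
  left_inv n := by
    apply Subtype.ext
    rfl
  right_inv g := by
    funext c
    ext j
    obtain ⟨c, hc⟩ := c
    obtain ⟨j, hj⟩ := j
    simp only at hj
    subst hj
    rfl

lemma tsum_lab {J C : Type*} [Fintype J] [DecidableEq J] [DecidableEq C] (z : J → C) (f : C → ℕ) :
    (∑' n : J → ℕ, (lab z f).indicator (fun _ => (1 : ℝ≥0∞)) n)
      = ∏ c ∈ Finset.univ.image z,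
        (((f c).descFactorial (Fintype.card {j // z j = c}) : ℕ) : ℝ≥0∞) := by
  rw [← tsum_subtype, ← (labEquiv z f).symm.tsum_eq, tsum_fintype]
  simp only [Finset.sum_const, Finset.card_univ, Fintype.card_pi, Fintype.card_embedding_eq,
    Fintype.card_fin, nsmul_eq_mul, mul_one]
  push_cast
  rw [← Finset.prod_attach (Finset.univ.image z)]
  rfl


/-- the cell `z + [0, 1) ^ d` -/
def cell {d : ℕ} (z : Fin d → ℤ) : Set (EuclideanSpace ℝ (Fin d)) :=
  {x | ∀ j, (z j : ℝ) ≤ x j ∧ x j < z j + 1}

lemma measurableSet_cube (d : ℕ) : MeasurableSet (cube d) := by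
  have : cube d = ⋂ j, {x : EuclideanSpace ℝ (Fin d) | 0 ≤ x j ∧ x j < 1} := by
    ext x; simp [cube]
  rw [this]
  refine MeasurableSet.iInter fun j => ?_
  have hm : Measurable fun x : EuclideanSpace ℝ (Fin d) => x j :=
    (EuclideanSpace.proj (𝕜 := ℝ) j).continuous.measurable
  exact (measurableSet_le measurable_const hm).inter (measurableSet_lt hm measurable_const)

lemma measurableSet_cell {d : ℕ} (z : Fin d → ℤ) : MeasurableSet (cell z) := by
  have : cell z = ⋂ j, {x : EuclideanSpace ℝ (Fin d) | (z j : ℝ) ≤ x j ∧ x j < z j + 1} := by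
    ext x; simp [cell]
  rw [this]
  refine MeasurableSet.iInter fun j => ?_
  have hm : Measurable fun x : EuclideanSpace ℝ (Fin d) => x j :=
    (EuclideanSpace.proj (𝕜 := ℝ) j).continuous.measurable
  exact (measurableSet_le measurable_const hm).inter (measurableSet_lt hm measurable_const)

lemma mem_cell_iff {d : ℕ} (z : Fin d → ℤ) (x : EuclideanSpace ℝ (Fin d)) :
    x ∈ cell z ↔ z = fun j => ⌊x j⌋ := by
  constructor
  · intro h
    funext j
    exact (Int.floor_eq_iff.2 (h j)).symm
  · rintro rfl j
    exact ⟨Int.floor_le _, Int.lt_floor_add_one _⟩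

lemma preimage_cell {d : ℕ} (z : Fin d → ℤ) :
    (fun x => corner z + x) ⁻¹' (cell z) = cube d := by
  ext x
  simp only [mem_preimage, cell, cube, corner, mem_ofPred_eq, PiLp.add_apply]
  refine forall_congr' fun j => ?_
  constructor
  · rintro ⟨h1, h2⟩; constructor <;> linarith
  · rintro ⟨h1, h2⟩; constructor <;> linarith

lemma map_corner_cube {d : ℕ} (z : Fin d → ℤ) :
    (volume.restrict (cube d)).map (fun x => corner z + x) = volume.restrict (cell z) := by
  have h := (measurePreserving_add_left (volume : Measure (EuclideanSpace ℝ (Fin d)))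
    (corner z)).restrict_preimage (measurableSet_cell z)
  rw [preimage_cell] at h
  exact h.map_eq

lemma volume_cube (d : ℕ) : volume (cube d) = 1 := by
  have h := (PiLp.volume_preserving_toLp (Fin d)).measure_preimage
    (measurableSet_cube d).nullMeasurableSet
  rw [← h]
  have : (WithLp.toLp 2 : (Fin d → ℝ) → _) ⁻¹' (cube d) = Set.pi univ fun _ => Ico (0 : ℝ) 1 := by
    ext x; simp [cube]
  rw [this, Real.volume_pi_Ico]
  simp

lemma volume_cell {d : ℕ} (z : Fin d → ℤ) : volume (cell z) = 1 := by
  have h := (measurePreserving_add_left (volume : Measure (EuclideanSpace ℝ (Fin d)))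
    (corner z)).measure_preimage (measurableSet_cell z).nullMeasurableSet
  rw [preimage_cell, volume_cube] at h
  exact h.symm

instance (d : ℕ) : IsProbabilityMeasure ((volume : Measure (EuclideanSpace ℝ (Fin d))).restrict
    (cube d)) := ⟨by rw [Measure.restrict_apply_univ, volume_cube]⟩

instance {d : ℕ} (z : Fin d → ℤ) : IsProbabilityMeasure
    ((volume : Measure (EuclideanSpace ℝ (Fin d))).restrict (cell z)) :=
  ⟨by rw [Measure.restrict_apply_univ, volume_cell]⟩

instance (p : ℝ) : IsFiniteMeasure (bern p) := by
  have h1 : IsFiniteMeasure (ENNReal.ofReal p • Measure.dirac true : Measure Bool) :=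
    Measure.smul_finite _ ENNReal.ofReal_ne_top
  have h2 : IsFiniteMeasure (ENNReal.ofReal (1 - p) • Measure.dirac false : Measure Bool) :=
    Measure.smul_finite _ ENNReal.ofReal_ne_top
  unfold bern; infer_instance

lemma bern_isProb {p : ℝ} (h0 : 0 ≤ p) (h1 : p ≤ 1) : IsProbabilityMeasure (bern p) := by
  constructor
  simp only [bern, Measure.coe_add, Measure.coe_smul, Pi.add_apply, Pi.smul_apply, measure_univ,
    smul_eq_mul, mul_one]
  rw [← ENNReal.ofReal_add h0 (by linarith)]
  simp

section
variable {Ω : Type*} [MeasurableSpace Ω] {P : Measure Ω} {d : ℕ} {p : ℝ}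
  {N : (Fin d → ℤ) → Ω → ℕ} {U : Idx d → Ω → EuclideanSpace ℝ (Fin d)} {red : Idx d → Ω → Bool}

lemma IsColouredPoisson.isProb (h : IsColouredPoisson P d p N U red) : IsProbabilityMeasure P :=
  h.indep_count.isProbabilityMeasure

lemma map_red (h : IsColouredPoisson P d p N U red) (h0 : 0 ≤ p) (i : Idx d) :
    P.map (red i) = bern p := by
  have := h.isProb
  have ht : P (red i ⁻¹' {true}) = ENNReal.ofReal p := by
    rw [← h.law_red i]; rfl
  refine Measure.ext_of_singleton fun b => ?_
  rw [Measure.map_apply (h.measurable_red i) (measurableSet_singleton b)]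
  cases b
  · have hc : red i ⁻¹' {false} = (red i ⁻¹' {true})ᶜ := by
      ext ω; simp
    rw [hc, prob_compl_eq_one_sub (h.measurable_red i (measurableSet_singleton _)), ht]
    simp only [bern, Measure.coe_add, Measure.coe_smul, Pi.add_apply, Pi.smul_apply,
      smul_eq_mul]
    rw [Measure.dirac_apply' _ (measurableSet_singleton _),
      Measure.dirac_apply' _ (measurableSet_singleton _)]
    simp [ENNReal.ofReal_sub _ h0]
  · rw [ht]
    simp only [bern, Measure.coe_add, Measure.coe_smul, Pi.add_apply, Pi.smul_apply,
      smul_eq_mul]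
    rw [Measure.dirac_apply' _ (measurableSet_singleton _),
      Measure.dirac_apply' _ (measurableSet_singleton _)]
    simp

lemma measurable_pos (h : IsColouredPoisson P d p N U red) (i : Idx d) :
    Measurable (pos U i) := by
  unfold pos
  exact measurable_const.add (h.measurable_U i)

/-- law of the position and the colour of one potential point -/
lemma map_mark (h : IsColouredPoisson P d p N U red) (h0 : 0 ≤ p) (h1 : p ≤ 1) (i : Idx d) :
    P.map (fun ω => (pos U i ω, red i ω))
      = ((volume : Measure (EuclideanSpace ℝ (Fin d))).restrict (cell i.1)).prod (bern p) := by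
  have := h.isProb
  have := bern_isProb h0 h1
  have e1 : P.map (fun ω => (U i ω, red i ω))
      = ((volume : Measure (EuclideanSpace ℝ (Fin d))).restrict (cube d)).prod (bern p) := by
    rw [(indepFun_iff_map_prod_eq_prod_map_map (h.measurable_U i).aemeasurable
      (h.measurable_red i).aemeasurable).1 (h.indep_mark i), h.law_U i, map_red h h0]
  have hm : Measurable (fun x : EuclideanSpace ℝ (Fin d) => corner i.1 + x) :=
    measurable_const.add measurable_id
  have e2 : (fun ω => (pos U i ω, red i ω))
      = (Prod.map (fun x => corner i.1 + x) id) ∘ (fun ω => (U i ω, red i ω)) := rfl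
  rw [e2, ← Measure.map_map (hm.prodMap measurable_id) ((h.measurable_U i).prodMk
    (h.measurable_red i)), e1, ← Measure.map_prod_map _ _ hm measurable_id, map_corner_cube,
    Measure.map_id]

/-- law of the positions and the colours of several distinct potential points -/
lemma map_marks (h : IsColouredPoisson P d p N U red) (h0 : 0 ≤ p) (h1 : p ≤ 1)
    {J : Type*} [Fintype J] (s : J → Idx d) (hs : Function.Injective s) :
    P.map (fun ω j => (pos U (s j) ω, red (s j) ω))
      = Measure.pi fun j =>
        ((volume : Measure (EuclideanSpace ℝ (Fin d))).restrict (cell (s j).1)).prod (bern p) := by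
  have hi : iIndepFun (fun i ω => (pos U i ω, red i ω)) P := by
    have := h.indep_marks.comp (fun i => Prod.map (fun x => corner i.1 + x) id)
      (fun i => (measurable_const.add measurable_id).prodMap measurable_id)
    exact this
  have hi' := hi.precomp hs
  rw [hi'.map_fun_eq_pi_map (fun j => ((measurable_pos h _).prodMk
    (h.measurable_red _)).aemeasurable)]
  simp_rw [map_mark h h0 h1]

/-- the unit cells partition the space, also for tuples -/
lemma tsum_cells {d : ℕ} (p : ℝ) {J : Type*} [Fintype J] {B : Set (J → EuclideanSpace ℝ (Fin d) × Bool)}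
    (hB : MeasurableSet B) :
    ∑' z : J → (Fin d → ℤ), (Measure.pi fun j =>
        ((volume : Measure (EuclideanSpace ℝ (Fin d))).restrict (cell (z j))).prod (bern p)) B
      = (Measure.pi fun _ : J => (volume : Measure (EuclideanSpace ℝ (Fin d))).prod (bern p)) B := by
  have e1 : ∀ z : J → (Fin d → ℤ), (Measure.pi fun j =>
        ((volume : Measure (EuclideanSpace ℝ (Fin d))).restrict (cell (z j))).prod (bern p)) B
      = (Measure.pi fun _ : J => (volume : Measure (EuclideanSpace ℝ (Fin d))).prod (bern p))
        (B ∩ Set.pi univ (fun j => cell (z j) ×ˢ (univ : Set Bool))) := by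
    intro z
    have e2 : ∀ j, ((volume : Measure (EuclideanSpace ℝ (Fin d))).restrict (cell (z j))).prod (bern p)
      = ((volume : Measure (EuclideanSpace ℝ (Fin d))).prod (bern p)).restrict
        (cell (z j) ×ˢ (univ : Set Bool)) := by
      intro j
      rw [← Measure.prod_restrict, Measure.restrict_univ]
    simp_rw [e2]
    rw [← Measure.restrict_pi_pi, Measure.restrict_apply hB]
  simp_rw [e1]
  rw [← measure_iUnion]
  · congr 1
    ext x
    simp only [mem_iUnion, mem_inter_iff, mem_pi, mem_univ, forall_true_left, mem_prod, and_true]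
    constructor
    · rintro ⟨z, hx, -⟩; exact hx
    · intro hx
      refine ⟨fun j k => ⌊(x j).1 k⌋, hx, fun j => ?_⟩
      rw [mem_cell_iff]
  · intro z z' hz
    rw [Function.onFun, Set.disjoint_left]
    rintro x ⟨-, h1⟩ ⟨-, h2⟩
    apply hz
    funext j
    have h3 := (h1 j (mem_univ j)).1
    have h4 := (h2 j (mem_univ j)).1
    rw [mem_cell_iff] at h3 h4
    rw [h3, h4]
  · intro z
    exact hB.inter (MeasurableSet.univ_pi fun j => (measurableSet_cell _).prod MeasurableSet.univ)

end

end Pool.Agent.PPP
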