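import Mathlib
import Pool.Agent.Lib_helper35.PPP.Basic

/-!
# The multivariate Campbell formula

`campbell`: the expected number of `J`-tuples of distinct points of the coloured Poisson process
with (position, colour) in `B` is the measure of `B` for the power of `volume ⊗ Bernoulli p`.
-/

set_option autoImplicit false
open MeasureTheory ProbabilityTheory Set
open scoped NNReal ENNReal

namespace Pool.Agent.PPP

section
variable {Ω : Type*} [MeasurableSpace Ω] {P : Measure Ω} {d : ℕ} {p : ℝ}
  {N : (Fin d → ℤ) → Ω → ℕ} {U : Idx d → Ω → EuclideanSpace ℝ (Fin d)} {red : Idx d → Ω → Bool}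

lemma measurableSet_present (h : IsColouredPoisson P d p N U red) (i : Idx d) :
    MeasurableSet {ω | Present N i ω} :=
  measurableSet_lt measurable_const (h.measurable_count i.1)

lemma measurableSet_presents (h : IsColouredPoisson P d p N U red) {J : Type*} [Countable J]
    (s : J → Idx d) : MeasurableSet {ω | ∀ j, Present N (s j) ω} := by
  rw [ofPred_forall]
  exact MeasurableSet.iInter fun j => measurableSet_present h _

/-- In every tuple of cells, the sum over the labels of the probabilities that the points are
present is one. -/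
lemma tsum_labels (h : IsColouredPoisson P d p N U red) {J : Type*} [Fintype J] [DecidableEq J]
    (z : J → Fin d → ℤ) :
    ∑' n : J → ℕ, P {ω | n ∈ lab z (fun c => N c ω)} = 1 := by
  classical
  have := h.isProb
  have hset : ∀ n : J → ℕ, MeasurableSet {ω | n ∈ lab z (fun c => N c ω)} := by
    intro n
    by_cases hn : Function.Injective (fun j => (z j, n j))
    · have : {ω | n ∈ lab z (fun c => N c ω)} = {ω | ∀ j, Present N (z j, n j) ω} := by
        ext ω; simp [lab, hn, Present]
      rw [this]
      exact measurableSet_presents h _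
    · have : {ω | n ∈ lab z (fun c => N c ω)} = ∅ := by
        ext ω; simp [lab, hn]
      rw [this]
      exact MeasurableSet.empty
  have e1 : ∀ n : J → ℕ, P {ω | n ∈ lab z (fun c => N c ω)}
      = ∫⁻ ω, (lab z (fun c => N c ω)).indicator (fun _ => (1 : ℝ≥0∞)) n ∂P := by
    intro n
    rw [← lintegral_indicator_one (hset n)]
    rfl
  simp_rw [e1]
  rw [← lintegral_tsum]
  · simp_rw [tsum_lab]
    have hI : iIndepFun (fun c ω => (((N c ω).descFactorial
        (Fintype.card {j // z j = c}) : ℕ) : ℝ≥0∞)) P :=
      h.indep_count.comp (fun c n => ((n.descFactorial (Fintype.card {j // z j = c}) : ℕ) : ℝ≥0∞))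
        (fun c => measurable_of_countable _)
    rw [lintegral_prod_eq_prod_lintegral_of_indepFun _ _ hI
      (fun c => (measurable_of_countable (fun n : ℕ =>
        ((n.descFactorial (Fintype.card {j // z j = c}) : ℕ) : ℝ≥0∞))).comp (h.measurable_count c))]
    refine Finset.prod_eq_one fun c _ => ?_
    have := lintegral_map (μ := P) (measurable_of_countable (fun n : ℕ =>
        ((n.descFactorial (Fintype.card {j // z j = c}) : ℕ) : ℝ≥0∞))) (h.measurable_count c)
    rw [← this, h.law_count, lintegral_descFactorial]
  · intro n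
    refine Measurable.aemeasurable ?_
    exact measurable_one.indicator (hset n)

/-- **The multivariate Campbell formula**: the expected number of the `J`-tuples of distinct
points of the process with (position, colour) in `B`. -/
theorem campbell (h : IsColouredPoisson P d p N U red) (h0 : 0 ≤ p) (h1 : p ≤ 1)
    {J : Type*} [Fintype J] {B : Set (J → EuclideanSpace ℝ (Fin d) × Bool)}
    (hB : MeasurableSet B) :
    ∑' s : J ↪ Idx d, P {ω | (∀ j, Present N (s j) ω) ∧
        (fun j => (pos U (s j) ω, red (s j) ω)) ∈ B}
      = (Measure.pi fun _ : J =>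
          (volume : Measure (EuclideanSpace ℝ (Fin d))).prod (bern p)) B := by
  classical
  have := h.isProb
  -- the law of the marks is independent of the presence
  have e1 : ∀ s : J ↪ Idx d, P {ω | (∀ j, Present N (s j) ω) ∧
        (fun j => (pos U (s j) ω, red (s j) ω)) ∈ B}
      = P {ω | ∀ j, Present N (s j) ω} * (Measure.pi fun j =>
        ((volume : Measure (EuclideanSpace ℝ (Fin d))).restrict (cell (s j).1)).prod
          (bern p)) B := by
    intro s
    have hA : MeasurableSet {f : (Fin d → ℤ) → ℕ | ∀ j, (s j).2 < f (s j).1} := by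
      rw [ofPred_forall]
      exact MeasurableSet.iInter fun j => measurableSet_lt measurable_const (measurable_pi_apply _)
    have hM : Measurable (fun (g : Idx d → EuclideanSpace ℝ (Fin d) × Bool) (j : J) =>
        (corner (s j).1 + (g (s j)).1, (g (s j)).2)) := by
      refine measurable_pi_lambda _ fun j => ?_
      exact (measurable_const.add (measurable_pi_apply (s j)).fst).prodMk
        (measurable_pi_apply (s j)).snd
    have h2 := h.indep.measure_inter_preimage_eq_mul _ _ hA (hM hB)
    have h3 : {ω | (∀ j, Present N (s j) ω) ∧ (fun j => (pos U (s j) ω, red (s j) ω)) ∈ B}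
      = (fun ω z => N z ω) ⁻¹' {f : (Fin d → ℤ) → ℕ | ∀ j, (s j).2 < f (s j).1} ∩
        (fun ω i => (U i ω, red i ω)) ⁻¹' ((fun (g : Idx d → EuclideanSpace ℝ (Fin d) × Bool)
          (j : J) => (corner (s j).1 + (g (s j)).1, (g (s j)).2)) ⁻¹' B) := rfl
    rw [h3, h2]
    congr 1
    rw [← map_marks h h0 h1 s s.injective, Measure.map_apply
      (measurable_pi_lambda _ fun j => (measurable_pos h _).prodMk (h.measurable_red _)) hB]
    rfl
  simp_rw [e1]
  -- sum over the cells and the labels
  let F : (J → Idx d) → ℝ≥0∞ := fun s => P {ω | ∀ j, Present N (s j) ω} * (Measure.pi fun j =>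
        ((volume : Measure (EuclideanSpace ℝ (Fin d))).restrict (cell (s j).1)).prod
          (bern p)) B
  have e2 : ∑' s : J ↪ Idx d, F s = ∑' s : J → Idx d, {s | Function.Injective s}.indicator F s := by
    rw [← tsum_subtype]
    exact ((Equiv.subtypeInjectiveEquivEmbedding J (Idx d)).tsum_eq (fun s => F s)).symm
  change ∑' s : J ↪ Idx d, F s = _
  rw [e2, ← (Equiv.arrowProdEquivProdArrow J (fun _ => Fin d → ℤ) (fun _ => ℕ)).symm.tsum_eq,
    ENNReal.tsum_prod', ← tsum_cells p hB]
  congr 1
  funext z
  have e3 : ∀ n : J → ℕ, {s : J → Idx d | Function.Injective s}.indicator F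
      ((Equiv.arrowProdEquivProdArrow J (fun _ => Fin d → ℤ) (fun _ => ℕ)).symm (z, n))
      = P {ω | n ∈ lab z (fun c => N c ω)} * (Measure.pi fun j =>
        ((volume : Measure (EuclideanSpace ℝ (Fin d))).restrict (cell (z j))).prod (bern p)) B := by
    intro n
    by_cases hn : Function.Injective (fun j => (z j, n j))
    · rw [indicator_of_mem (by exact hn)]
      have : {ω | n ∈ lab z (fun c => N c ω)} = {ω | ∀ j, Present N (z j, n j) ω} := by
        ext ω; simp [lab, hn, Present]
      rw [this]
      rfl
    · rw [indicator_of_notMem (by exact hn)]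
      have : {ω | n ∈ lab z (fun c => N c ω)} = ∅ := by
        ext ω; simp [lab, hn]
      rw [this]
      simp
  simp_rw [e3]
  rw [ENNReal.tsum_mul_right, tsum_labels h z, one_mul]

/-- an upper bound for the probability that some tuple of distinct points is in `B` -/
theorem measure_exists_tuple_le (h : IsColouredPoisson P d p N U red) (h0 : 0 ≤ p) (h1 : p ≤ 1)
    {J : Type*} [Fintype J] {B : Set (J → EuclideanSpace ℝ (Fin d) × Bool)}
    (hB : MeasurableSet B) :
    P {ω | ∃ s : J → Idx d, Function.Injective s ∧ (∀ j, Present N (s j) ω) ∧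
        (fun j => (pos U (s j) ω, red (s j) ω)) ∈ B}
      ≤ (Measure.pi fun _ : J =>
          (volume : Measure (EuclideanSpace ℝ (Fin d))).prod (bern p)) B := by
  classical
  rw [← campbell h h0 h1 hB]
  have e : {ω | ∃ s : J → Idx d, Function.Injective s ∧ (∀ j, Present N (s j) ω) ∧
        (fun j => (pos U (s j) ω, red (s j) ω)) ∈ B}
      = ⋃ s : J ↪ Idx d, {ω | (∀ j, Present N (s j) ω) ∧
        (fun j => (pos U (s j) ω, red (s j) ω)) ∈ B} := by
    ext ω
    simp only [mem_ofPred_eq, mem_iUnion]
    constructor
    · rintro ⟨s, hs, h2, h3⟩; exact ⟨⟨s, hs⟩, h2, h3⟩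
    · rintro ⟨s, h2, h3⟩; exact ⟨s, s.injective, h2, h3⟩
  rw [e]
  have : Countable (J ↪ Idx d) := Function.Injective.countable (DFunLike.coe_injective (F := J ↪ Idx d))
  exact measure_iUnion_le _

/-- the positions of the points alone -/
lemma pi_positions (d : ℕ) {p : ℝ} (h0 : 0 ≤ p) (h1 : p ≤ 1) {J : Type*} [Fintype J]
    {S : Set (J → EuclideanSpace ℝ (Fin d))} (hS : MeasurableSet S) :
    (Measure.pi fun _ : J => (volume : Measure (EuclideanSpace ℝ (Fin d))).prod (bern p))
      {x | (fun j => (x j).1) ∈ S} = volume S := by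
  have := bern_isProb h0 h1
  have hf : Measurable (fun (x : J → EuclideanSpace ℝ (Fin d) × Bool) (j : J) => (x j).1) :=
    measurable_pi_lambda _ fun j => (measurable_pi_apply j).fst
  have e : ((volume : Measure (EuclideanSpace ℝ (Fin d))).prod (bern p)).map Prod.fst
      = volume := by
    rw [Measure.map_fst_prod, measure_univ, one_smul]
  have e2 := Measure.pi_map_pi (ι := J) (μ := fun _ : J =>
    (volume : Measure (EuclideanSpace ℝ (Fin d))).prod (bern p)) (f := fun _ => Prod.fst)
    (hμ := fun _ => by rw [e]; infer_instance) (fun _ => measurable_fst.aemeasurable)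
  rw [e] at e2
  have e3 : (volume : Measure (J → EuclideanSpace ℝ (Fin d))) = Measure.pi fun _ => volume := rfl
  rw [e3, ← e2, Measure.map_apply hf hS]
  rfl

/-- an upper bound for the probability that some tuple of positions of distinct points is
in `S` -/
theorem measure_exists_positions_le (h : IsColouredPoisson P d p N U red) (h0 : 0 ≤ p)
    (h1 : p ≤ 1) {J : Type*} [Fintype J] {S : Set (J → EuclideanSpace ℝ (Fin d))}
    (hS : MeasurableSet S) :
    P {ω | ∃ s : J → Idx d, Function.Injective s ∧ (∀ j, Present N (s j) ω) ∧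
        (fun j => pos U (s j) ω) ∈ S} ≤ volume S := by
  have hf : Measurable (fun (x : J → EuclideanSpace ℝ (Fin d) × Bool) (j : J) => (x j).1) :=
    measurable_pi_lambda _ fun j => (measurable_pi_apply j).fst
  have := measure_exists_tuple_le h h0 h1 (B := {x | (fun j => (x j).1) ∈ S}) (hf hS)
  rw [pi_positions d h0 h1 hS] at this
  exact this

/-- the measure of the points with positions in `S` and prescribed colours -/
lemma pi_colours (d : ℕ) {p : ℝ} {J : Type*} [Fintype J]
    {S : Set (J → EuclideanSpace ℝ (Fin d))} (hS : MeasurableSet S) (c : J → Bool) :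
    (Measure.pi fun _ : J => (volume : Measure (EuclideanSpace ℝ (Fin d))).prod (bern p))
      {x | (fun j => (x j).1) ∈ S ∧ (fun j => (x j).2) = c}
      = (∏ j, bern p {c j}) * volume S := by
  have hf : Measurable (fun (x : J → EuclideanSpace ℝ (Fin d) × Bool) (j : J) => (x j).1) :=
    measurable_pi_lambda _ fun j => (measurable_pi_apply j).fst
  have e1 := (measurePreserving_arrowProdEquivProdArrow (EuclideanSpace ℝ (Fin d)) Bool J
    (fun _ => (volume : Measure (EuclideanSpace ℝ (Fin d)))) (fun _ => bern p)).measure_preimage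
    (s := S ×ˢ {c}) ((hS.prod (measurableSet_singleton c)).nullMeasurableSet)
  rw [Measure.prod_prod, Measure.pi_singleton] at e1
  rw [mul_comm]
  refine Eq.trans ?_ e1
  congr 1

/-- the number of `J`-tuples of distinct points with (position, colour) in `B` -/
noncomputable def tupleCount (N : (Fin d → ℤ) → Ω → ℕ) (U : Idx d → Ω → EuclideanSpace ℝ (Fin d))
    (red : Idx d → Ω → Bool) {J : Type*} (B : Set (J → EuclideanSpace ℝ (Fin d) × Bool))
    (ω : Ω) : ℝ≥0∞ :=
  ∑' s : J ↪ Idx d, {s : J ↪ Idx d | (∀ j, Present N (s j) ω) ∧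
        (fun j => (pos U (s j) ω, red (s j) ω)) ∈ B}.indicator (fun _ => 1) s

/-- Campbell's formula as an expectation -/
theorem lintegral_tupleCount (h : IsColouredPoisson P d p N U red) (h0 : 0 ≤ p) (h1 : p ≤ 1)
    {J : Type*} [Fintype J] {B : Set (J → EuclideanSpace ℝ (Fin d) × Bool)}
    (hB : MeasurableSet B) :
    ∫⁻ ω, tupleCount N U red B ω ∂P
      = (Measure.pi fun _ : J =>
          (volume : Measure (EuclideanSpace ℝ (Fin d))).prod (bern p)) B := by
  classical
  have hm : ∀ s : J ↪ Idx d, MeasurableSet {ω | (∀ j, Present N (s j) ω) ∧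
        (fun j => (pos U (s j) ω, red (s j) ω)) ∈ B} := fun s =>
    (measurableSet_presents h s).inter
      ((measurable_pi_lambda _ fun j => (measurable_pos h _).prodMk (h.measurable_red _)) hB)
  have : Countable (J ↪ Idx d) := Function.Injective.countable (DFunLike.coe_injective (F := J ↪ Idx d))
  rw [← campbell h h0 h1 hB]
  unfold tupleCount
  rw [lintegral_tsum]
  · congr 1
    funext s
    rw [← lintegral_indicator_one (hm s)]
    rfl
  · intro s
    exact (measurable_one.indicator (hm s)).aemeasurable

end

end Pool.Agent.PPP
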