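import Mathlib

/-!
# A finite measure on `ℕ` with the factorial moments of a Poisson law is a Poisson law
-/

set_option autoImplicit false
open MeasureTheory ProbabilityTheory Set Filter Topology
open scoped NNReal ENNReal

namespace Pool.Agent.PPP

/-- inversion coefficients -/
noncomputable def ac (k m : ℕ) : ℝ :=
  if k ≤ m then (-1) ^ (m - k) / (k.factorial * (m - k).factorial) else 0

lemma hasSum_ac (k n : ℕ) :
    HasSum (fun m => ac k m * (n.descFactorial m : ℝ)) (if n = k then 1 else 0) := by
  have h0 : ∀ m, m ∉ Finset.range (n + 1) → ac k m * (n.descFactorial m : ℝ) = 0 := by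
    intro m hm
    rw [Finset.mem_range, not_lt] at hm
    rw [Nat.descFactorial_eq_zero_iff_lt.2 (by omega)]
    simp
  have h1 : HasSum (fun m => ac k m * (n.descFactorial m : ℝ))
      (∑ m ∈ Finset.range (n + 1), ac k m * (n.descFactorial m : ℝ)) :=
    hasSum_sum_of_ne_finset_zero h0
  convert h1 using 1
  rcases lt_or_ge n k with hnk | hnk
  · rw [if_neg hnk.ne, Finset.sum_eq_zero]
    intro m hm
    rw [Finset.mem_range] at hm
    rw [ac, if_neg (by omega), zero_mul]
  · have e1 : n + 1 = k + (n - k + 1) := by omega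
    rw [e1, Finset.sum_range_add]
    have e2 : ∑ m ∈ Finset.range k, ac k m * (n.descFactorial m : ℝ) = 0 := by
      refine Finset.sum_eq_zero fun m hm => ?_
      rw [Finset.mem_range] at hm
      rw [ac, if_neg (by omega), zero_mul]
    rw [e2, zero_add]
    have e3 : ∀ l ∈ Finset.range (n - k + 1), ac k (k + l) * (n.descFactorial (k + l) : ℝ)
        = (n.choose k : ℝ) * (((-1) ^ l * (n - k).choose l : ℤ) : ℝ) := by
      intro l _
      rw [ac, if_pos (by omega), Nat.add_sub_cancel_left]
      have h2 : (n.descFactorial (k + l) : ℝ)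
          = (l.factorial * (n - k).choose l : ℝ) * (k.factorial * n.choose k) := by
        have := Nat.descFactorial_mul_descFactorial (n := n) (show k ≤ k + l by omega)
        rw [Nat.add_sub_cancel_left, Nat.descFactorial_eq_factorial_mul_choose (n - k) l,
          Nat.descFactorial_eq_factorial_mul_choose n k] at this
        rw [← this]
        push_cast
        ring
      rw [h2]
      have h3 : (k.factorial : ℝ) ≠ 0 := by exact_mod_cast k.factorial_ne_zero
      have h4 : (l.factorial : ℝ) ≠ 0 := by exact_mod_cast l.factorial_ne_zero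
      push_cast
      field_simp
    rw [Finset.sum_congr rfl e3, ← Finset.mul_sum, ← Int.cast_sum,
      Int.alternating_sum_range_choose]
    by_cases hk : n = k
    · subst hk
      simp
    · rw [if_neg hk, if_neg (by omega)]
      simp

lemma summable_ac (k : ℕ) (v : ℝ) : Summable (fun m => |ac k m| * v ^ m) := by
  rw [← summable_nat_add_iff k]
  have h := (Real.summable_pow_div_factorial v).mul_left (v ^ k / k.factorial)
  refine h.congr fun l => ?_
  rw [ac, if_pos (by omega), Nat.add_sub_cancel, abs_div, abs_pow, abs_neg, abs_one, one_pow,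
    abs_of_nonneg (by positivity), pow_add]
  have h3 : (k.factorial : ℝ) ≠ 0 := by exact_mod_cast k.factorial_ne_zero
  have h4 : (l.factorial : ℝ) ≠ 0 := by exact_mod_cast l.factorial_ne_zero
  field_simp

/-- inversion formula -/
lemma measure_singleton_of_moments (ρ : Measure ℕ) [IsFiniteMeasure ρ] (v c : ℝ≥0)
    (h : ∀ m, ∫⁻ n : ℕ, ((n.descFactorial m : ℕ) : ℝ≥0∞) ∂ρ = c * (v : ℝ≥0∞) ^ m) (k : ℕ) :
    ρ.real {k} = ∑' m, ac k m * (c * v ^ m) := by
  have e1 : ∀ m, ∫ n : ℕ, (n.descFactorial m : ℝ) ∂ρ = c * v ^ m := by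
    intro m
    rw [integral_eq_lintegral_of_nonneg_ae (Eventually.of_forall fun n => by positivity)
      (measurable_of_countable _).aestronglyMeasurable]
    have : ∀ n : ℕ, ENNReal.ofReal (n.descFactorial m : ℝ)
        = ((n.descFactorial m : ℕ) : ℝ≥0∞) := fun n => ENNReal.ofReal_natCast _
    simp_rw [this]
    rw [h m]
    simp
  have hint : ∀ m, Integrable (fun n : ℕ => (n.descFactorial m : ℝ)) ρ := by
    intro m
    refine ⟨(measurable_of_countable _).aestronglyMeasurable, ?_⟩
    rw [hasFiniteIntegral_iff_ofReal (Eventually.of_forall fun n => by positivity)]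
    have : ∀ n : ℕ, ENNReal.ofReal (n.descFactorial m : ℝ)
        = ((n.descFactorial m : ℕ) : ℝ≥0∞) := fun n => ENNReal.ofReal_natCast _
    simp_rw [this]
    rw [h m]
    exact ENNReal.mul_lt_top ENNReal.coe_lt_top (ENNReal.pow_lt_top ENNReal.coe_lt_top)
  have e2 : ρ.real {k} = ∫ n : ℕ, (∑' m, ac k m * (n.descFactorial m : ℝ)) ∂ρ := by
    have : ∀ n : ℕ, (∑' m, ac k m * (n.descFactorial m : ℝ)) = ({k} : Set ℕ).indicator 1 n := by
      intro n
      rw [(hasSum_ac k n).tsum_eq]
      by_cases hn : n = k
      · simp [hn]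
      · simp [hn]
    simp_rw [this]
    rw [integral_indicator_one (measurableSet_singleton k)]
  rw [e2, ← integral_tsum_of_summable_integral_norm]
  · congr 1
    funext m
    rw [integral_const_mul, e1 m]
  · intro m
    exact (hint m).const_mul _
  · have : ∀ m, ∫ n : ℕ, ‖ac k m * (n.descFactorial m : ℝ)‖ ∂ρ = |ac k m| * (c * v ^ m) := by
      intro m
      rw [← e1 m, ← integral_const_mul]
      congr 1
      funext n
      rw [Real.norm_eq_abs, abs_mul, abs_of_nonneg (by positivity : (0 : ℝ) ≤ (n.descFactorial m : ℝ))]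
    simp_rw [this]
    have := (summable_ac k v).mul_left (c : ℝ)
    refine this.congr fun m => ?_
    ring

/-- factorial moments of the Poisson law -/
lemma lintegral_descFactorial_poisson (v : ℝ≥0) (m : ℕ) :
    ∫⁻ n, ((n.descFactorial m : ℕ) : ℝ≥0∞) ∂(poissonMeasure v) = (v : ℝ≥0∞) ^ m := by
  rw [MeasureTheory.lintegral_countable']
  have tot : ∑' n, poissonMeasure v {n} = 1 := by
    have := measure_univ (μ := poissonMeasure v)
    rw [← this, ← MeasureTheory.lintegral_one, MeasureTheory.lintegral_countable']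
    simp
  have key : ∀ n : ℕ, (((n + m).descFactorial m : ℕ) : ℝ≥0∞) * poissonMeasure v {n + m}
      = (v : ℝ≥0∞) ^ m * poissonMeasure v {n} := by
    intro n
    rw [poissonMeasure_singleton, poissonMeasure_singleton]
    rw [← ENNReal.ofReal_natCast, ← ENNReal.ofReal_coe_nnreal, ← ENNReal.ofReal_pow (by positivity),
      ← ENNReal.ofReal_mul (by positivity), ← ENNReal.ofReal_mul (by positivity)]
    congr 1
    have h1 : (n.factorial : ℝ) * ((n + m).descFactorial m : ℕ) = ((n + m).factorial : ℝ) := by
      have := Nat.factorial_mul_descFactorial (Nat.le_add_left m n)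
      rw [Nat.add_sub_cancel] at this
      exact_mod_cast this
    have h2 : (n.factorial : ℝ) ≠ 0 := by exact_mod_cast n.factorial_ne_zero
    have h3 : ((n + m).factorial : ℝ) ≠ 0 := by exact_mod_cast (n + m).factorial_ne_zero
    rw [mul_div_assoc', mul_div_assoc', div_eq_div_iff h3 h2, ← h1]
    ring
  rw [← Summable.sum_add_tsum_nat_add' (k := m) ENNReal.summable]
  simp_rw [key]
  rw [ENNReal.tsum_mul_left, tot, Finset.sum_eq_zero]
  · simp
  · intro n hn
    rw [Nat.descFactorial_eq_zero_iff_lt.2 (Finset.mem_range.1 hn)]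
    simp

/-- **Uniqueness**: a measure on `ℕ` with the factorial moments `c * v ^ m` is `c` times the
Poisson law. -/
theorem eq_smul_poisson (ρ : Measure ℕ) (v : ℝ≥0) (c : ℝ≥0∞) (hc : c ≠ ⊤)
    (h : ∀ m, ∫⁻ n : ℕ, ((n.descFactorial m : ℕ) : ℝ≥0∞) ∂ρ = c * (v : ℝ≥0∞) ^ m) :
    ρ = c • poissonMeasure v := by
  lift c to ℝ≥0 using hc
  have hfin : IsFiniteMeasure ρ := by
    constructor
    have := h 0
    simp only [Nat.descFactorial_zero, Nat.cast_one, lintegral_one, pow_zero, mul_one] at this
    rw [this]
    exact ENNReal.coe_lt_top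
  have hfin2 : IsFiniteMeasure ((c : ℝ≥0∞) • poissonMeasure v) :=
    Measure.smul_finite _ ENNReal.coe_ne_top
  refine Measure.ext_of_singleton fun k => ?_
  have h1 := measure_singleton_of_moments ρ v c h k
  have h2 := measure_singleton_of_moments ((c : ℝ≥0∞) • poissonMeasure v) v c (fun m => by
    rw [lintegral_smul_measure, lintegral_descFactorial_poisson, smul_eq_mul]) k
  rw [← ENNReal.toReal_eq_toReal_iff' (measure_ne_top _ _) (measure_ne_top _ _)]
  exact h1.trans h2.symm

end Pool.Agent.PPP
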