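import Pool.Agent.Lib_helper35.PPP.Campbell
import Pool.Agent.Lib_helper35.PPP.Moments
import Pool.Agent.Lib_helper33.ASM.TDefs

/-!
# The law of the numbers of points in disjoint Borel sets

The numbers of points of the (cellwise defined) Poisson process in disjoint Borel sets of finite
volume are independent Poisson variables.
-/

set_option autoImplicit false
open MeasureTheory ProbabilityTheory Set Filter Topology
open scoped NNReal ENNReal

namespace Pool.Agent.PPP

/-- injections of a sum into disjoint sets -/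
def embEquiv {r : ℕ} {I : Type*} (S : Fin r → Set I) (hS : ∀ i j, i ≠ j → Disjoint (S i) (S j))
    (m : Fin r → ℕ) :
    {s : ((i : Fin r) × Fin (m i)) ↪ I // ∀ j, s j ∈ S j.1} ≃ ((i : Fin r) → (Fin (m i) ↪ S i)) where
  toFun s i := ⟨fun a => ⟨s.1 ⟨i, a⟩, s.2 ⟨i, a⟩⟩, by
      intro a b hab
      have h1 : s.1 ⟨i, a⟩ = s.1 ⟨i, b⟩ := congrArg Subtype.val hab
      have h2 := s.1.injective h1
      simpa using h2⟩
  invFun g := ⟨⟨fun j => (g j.1 j.2 : I), by
      rintro ⟨i, a⟩ ⟨i', a'⟩ h
      simp only at h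
      by_cases hi : i = i'
      · subst hi
        have := (g i).injective (Subtype.ext h)
        rw [this]
      · exfalso
        have h1 : ((g i a : S i) : I) ∈ S i := (g i a).2
        have h2 : ((g i' a' : S i') : I) ∈ S i' := (g i' a').2
        rw [← h] at h2
        exact Set.disjoint_left.1 (hS i i' hi) h1 h2⟩, fun j => (g j.1 j.2).2⟩
  left_inv s := by
    apply Subtype.ext
    ext j
    rfl
  right_inv g := by
    funext i
    ext a
    rfl

lemma tsum_emb {r : ℕ} {I : Type*} (S : Fin r → Set I) (hS : ∀ i j, i ≠ j → Disjoint (S i) (S j))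
    (m : Fin r → ℕ) (hf : ∀ i, (S i).Finite) :
    (∑' s : ((i : Fin r) × Fin (m i)) ↪ I,
      {s : ((i : Fin r) × Fin (m i)) ↪ I | ∀ j, s j ∈ S j.1}.indicator (fun _ => (1 : ℝ≥0∞)) s)
      = ∏ i, (((S i).ncard.descFactorial (m i) : ℕ) : ℝ≥0∞) := by
  classical
  have hfi : ∀ i, Fintype (S i) := fun i => (hf i).fintype
  rw [← tsum_subtype {s : ((i : Fin r) × Fin (m i)) ↪ I | ∀ j, s j ∈ S j.1}
    (fun _ => (1 : ℝ≥0∞))]
  have e := (embEquiv S hS m).symm.tsum_eq (fun _ => (1 : ℝ≥0∞))
  change (∑' _ : {s : ((i : Fin r) × Fin (m i)) ↪ I // ∀ j, s j ∈ S j.1}, (1 : ℝ≥0∞)) = _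
  rw [← e, tsum_fintype]
  simp only [Finset.sum_const, Finset.card_univ, Fintype.card_pi, Fintype.card_embedding_eq,
    Fintype.card_fin, nsmul_eq_mul, mul_one]
  push_cast
  refine Finset.prod_congr rfl fun i _ => ?_
  rw [← Nat.card_coe_set_eq, Nat.card_eq_fintype_card]

section
variable {Ω : Type*} [MeasurableSpace Ω] {P : Measure Ω} {d : ℕ} {p : ℝ}
  {N : (Fin d → ℤ) → Ω → ℕ} {U : Idx d → Ω → EuclideanSpace ℝ (Fin d)} {red : Idx d → Ω → Bool}

/-- the labels of the present points in `A` -/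
def inA (N : (Fin d → ℤ) → Ω → ℕ) (U : Idx d → Ω → EuclideanSpace ℝ (Fin d))
    (A : Set (EuclideanSpace ℝ (Fin d))) (ω : Ω) : Set (Idx d) :=
  {j | Present N j ω ∧ pos U j ω ∈ A}

lemma measurableSet_mem_inA (h : IsColouredPoisson P d p N U red)
    {A : Set (EuclideanSpace ℝ (Fin d))} (hA : MeasurableSet A) (j : Idx d) :
    MeasurableSet {ω | j ∈ inA N U A ω} :=
  (measurableSet_present h j).inter (measurable_pos h j hA)

omit [MeasurableSpace Ω] in
lemma encard_inA (A : Set (EuclideanSpace ℝ (Fin d))) (ω : Ω) :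
    (((inA N U A ω).encard : ℕ∞) : ℝ≥0∞)
      = ∑' j : Idx d, {ω | j ∈ inA N U A ω}.indicator (fun _ => (1 : ℝ≥0∞)) ω := by
  rw [← ENNReal.tsum_set_one, tsum_subtype (inA N U A ω) (fun _ => (1 : ℝ≥0∞))]
  rfl

lemma measurable_encard (h : IsColouredPoisson P d p N U red)
    {A : Set (EuclideanSpace ℝ (Fin d))} (hA : MeasurableSet A) :
    Measurable fun ω => (((inA N U A ω).encard : ℕ∞) : ℝ≥0∞) := by
  simp_rw [encard_inA]
  exact Measurable.tsum fun j => measurable_const.indicator (measurableSet_mem_inA h hA j)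

lemma measurable_ncard (h : IsColouredPoisson P d p N U red)
    {A : Set (EuclideanSpace ℝ (Fin d))} (hA : MeasurableSet A) :
    Measurable fun ω => (inA N U A ω).ncard := by
  have : (fun ω => (inA N U A ω).ncard)
      = fun ω => ⌊(((inA N U A ω).encard : ℕ∞) : ℝ≥0∞).toReal.toNNReal⌋₊ := by
    funext ω
    rw [ncard]
    rcases eq_or_ne (inA N U A ω).encard ⊤ with h | h
    · simp [h]
    · obtain ⟨k, hk⟩ := ENat.ne_top_iff_exists.1 h
      rw [← hk]
      simp
  rw [this]
  exact Nat.measurable_floor.comp (measurable_encard h hA).ennreal_toReal.real_toNNReal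

lemma lintegral_encard (h : IsColouredPoisson P d p N U red) (h0 : 0 ≤ p) (h1 : p ≤ 1)
    {A : Set (EuclideanSpace ℝ (Fin d))} (hA : MeasurableSet A) :
    ∫⁻ ω, (((inA N U A ω).encard : ℕ∞) : ℝ≥0∞) ∂P = volume A := by
  have := bern_isProb h0 h1
  simp_rw [encard_inA]
  rw [lintegral_tsum fun j =>
    (measurable_const.indicator (measurableSet_mem_inA h hA j)).aemeasurable]
  have e1 : ∀ j : Idx d, ∫⁻ ω, {ω | j ∈ inA N U A ω}.indicator (fun _ => (1 : ℝ≥0∞)) ω ∂P
      = P {ω | j ∈ inA N U A ω} := by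
    intro j
    rw [← lintegral_indicator_one (measurableSet_mem_inA h hA j)]
    rfl
  simp_rw [e1]
  have hB : MeasurableSet {x : Unit → EuclideanSpace ℝ (Fin d) × Bool | ∀ j, (x j).1 ∈ A} := by
    rw [ofPred_forall]
    exact MeasurableSet.iInter fun j => (measurable_pi_apply j).fst hA
  have e2 := campbell h h0 h1 hB
  have e3 : (Measure.pi fun _ : Unit =>
      (volume : Measure (EuclideanSpace ℝ (Fin d))).prod (bern p))
      {x : Unit → EuclideanSpace ℝ (Fin d) × Bool | ∀ j, (x j).1 ∈ A} = volume A := by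
    have : {x : Unit → EuclideanSpace ℝ (Fin d) × Bool | ∀ j, (x j).1 ∈ A}
        = Set.pi univ fun _ => A ×ˢ univ := by
      ext x; simp
    rw [this, Measure.pi_pi]
    simp only [Measure.prod_prod, measure_univ, mul_one, Finset.univ_unique, Finset.prod_const,
      Finset.card_singleton, pow_one]
  rw [e3, ← (Equiv.uniqueEmbeddingEquivResult (α := Unit) (β := Idx d)).symm.tsum_eq] at e2
  rw [← e2]
  congr 1
  funext j
  congr 1
  ext ω
  exact ⟨fun h => ⟨fun _ => h.1, fun _ => h.2⟩, fun h => ⟨h.1 (), h.2 ()⟩⟩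

lemma ae_finite_inA (h : IsColouredPoisson P d p N U red) (h0 : 0 ≤ p) (h1 : p ≤ 1)
    {A : Set (EuclideanSpace ℝ (Fin d))} (hA : MeasurableSet A) (hv : volume A ≠ ⊤) :
    ∀ᵐ ω ∂P, (inA N U A ω).Finite := by
  have e := ae_lt_top (measurable_encard h hA) (by rw [lintegral_encard h h0 h1 hA]; exact hv)
  filter_upwards [e] with ω hω
  rw [← encard_lt_top_iff]
  simpa using hω

/-- joint factorial moments -/
lemma lintegral_prod_descFactorial (h : IsColouredPoisson P d p N U red) (h0 : 0 ≤ p)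
    (h1 : p ≤ 1) {r : ℕ} {A : Fin r → Set (EuclideanSpace ℝ (Fin d))}
    (hA : ∀ i, MeasurableSet (A i)) (hv : ∀ i, volume (A i) ≠ ⊤)
    (hd : ∀ i j, i ≠ j → Disjoint (A i) (A j)) (m : Fin r → ℕ) :
    ∫⁻ ω, ∏ i, (((inA N U (A i) ω).ncard.descFactorial (m i) : ℕ) : ℝ≥0∞) ∂P
      = ∏ i, (volume (A i)) ^ (m i) := by
  have := bern_isProb h0 h1
  let B : Set (((i : Fin r) × Fin (m i)) → EuclideanSpace ℝ (Fin d) × Bool) :=
    {x | ∀ j, (x j).1 ∈ A j.1}
  have hB : MeasurableSet B := by
    have : B = ⋂ j : (i : Fin r) × Fin (m i), {x | (x j).1 ∈ A j.1} := by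
      ext x; simp [B]
    rw [this]
    exact MeasurableSet.iInter fun j => (measurable_pi_apply j).fst (hA j.1)
  have e2 := lintegral_tupleCount h h0 h1 hB
  have e3 : (Measure.pi fun _ : ((i : Fin r) × Fin (m i)) =>
      (volume : Measure (EuclideanSpace ℝ (Fin d))).prod (bern p)) B
      = ∏ i, (volume (A i)) ^ (m i) := by
    have : B = Set.pi univ fun j : ((i : Fin r) × Fin (m i)) => A j.1 ×ˢ univ := by
      ext x; simp [B]
    rw [this, Measure.pi_pi, Fintype.prod_sigma]
    refine Finset.prod_congr rfl fun i _ => ?_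
    simp only [Measure.prod_prod, measure_univ, mul_one, Finset.prod_const, Finset.card_univ,
      Fintype.card_fin]
  rw [← e3, ← e2]
  refine lintegral_congr_ae ?_
  have hf : ∀ᵐ ω ∂P, ∀ i, (inA N U (A i) ω).Finite :=
    ae_all_iff.2 fun i => ae_finite_inA h h0 h1 (hA i) (hv i)
  filter_upwards [hf] with ω hω
  rw [← tsum_emb (fun i => inA N U (A i) ω) ?_ m hω]
  · unfold tupleCount
    congr 1
    funext s
    congr 1
    ext s
    simp only [mem_ofPred_eq, inA, B]
    exact ⟨fun h => ⟨fun j => (h j).1, fun j => (h j).2⟩, fun h j => ⟨h.1 j, h.2 j⟩⟩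
  · intro i j hij
    rw [Set.disjoint_left]
    rintro a ⟨-, ha⟩ ⟨-, ha'⟩
    exact Set.disjoint_left.1 (hd i j hij) ha ha'

/-- the mixed formula: indicators for the indices in `S`, factorial moments for the others -/
lemma lintegral_mixed (h : IsColouredPoisson P d p N U red) (h0 : 0 ≤ p)
    (h1 : p ≤ 1) {r : ℕ} {A : Fin r → Set (EuclideanSpace ℝ (Fin d))}
    (hA : ∀ i, MeasurableSet (A i)) (hv : ∀ i, volume (A i) ≠ ⊤)
    (hd : ∀ i j, i ≠ j → Disjoint (A i) (A j)) (S : Finset (Fin r)) :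
    ∀ g : Fin r → ℕ → ℝ≥0∞, (∀ i ∈ S, ∃ k : ℕ, g i = ({k} : Set ℕ).indicator 1) →
      (∀ i ∉ S, ∃ m : ℕ, g i = fun n => ((n.descFactorial m : ℕ) : ℝ≥0∞)) →
      ∫⁻ ω, ∏ i, g i ((inA N U (A i) ω).ncard) ∂P
        = ∏ i, ∫⁻ n, g i n ∂(poissonMeasure (volume (A i)).toNNReal) := by
  classical
  have hco : ∀ i, ((volume (A i)).toNNReal : ℝ≥0∞) = volume (A i) := fun i =>
    ENNReal.coe_toNNReal (hv i)
  induction S using Finset.induction_on with
  | empty =>
    intro g _ hg
    choose m hm using fun i => hg i (Finset.notMem_empty i)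
    simp_rw [hm, lintegral_descFactorial_poisson, hco]
    exact lintegral_prod_descFactorial h h0 h1 hA hv hd m
  | insert a S ha ih =>
    intro g hg1 hg2
    let W : Ω → ℝ≥0∞ := fun ω => ∏ i ∈ Finset.univ.erase a, g i ((inA N U (A i) ω).ncard)
    let c : ℝ≥0∞ := ∏ i ∈ Finset.univ.erase a,
      ∫⁻ n, g i n ∂(poissonMeasure (volume (A i)).toNNReal)
    have hW : Measurable W := by
      refine Finset.measurable_prod _ fun i _ => ?_
      exact (measurable_of_countable (g i)).comp (measurable_ncard h (hA i))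
    have hK : Measurable fun ω => (inA N U (A a) ω).ncard := measurable_ncard h (hA a)
    have hc : c ≠ ⊤ := by
      refine ENNReal.prod_ne_top fun i hi => ?_
      have hia : i ≠ a := Finset.ne_of_mem_erase hi
      by_cases hiS : i ∈ S
      · obtain ⟨k, hk⟩ := hg1 i (Finset.mem_insert_of_mem hiS)
        rw [hk, lintegral_indicator_one (measurableSet_singleton k)]
        exact measure_ne_top _ _
      · obtain ⟨m, hm⟩ := hg2 i (by
          rw [Finset.mem_insert]; push Not; exact ⟨hia, hiS⟩)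
        rw [hm, lintegral_descFactorial_poisson]
        exact ENNReal.pow_ne_top ENNReal.coe_ne_top
    let ρ : Measure ℕ := (P.withDensity W).map fun ω => (inA N U (A a) ω).ncard
    have hρ : ∀ f : ℕ → ℝ≥0∞, ∫⁻ n, f n ∂ρ
        = ∫⁻ ω, f ((inA N U (A a) ω).ncard) * W ω ∂P := by
      intro f
      have hm2 : Measurable fun ω => f ((inA N U (A a) ω).ncard) :=
        (measurable_of_countable f).comp hK
      rw [lintegral_map (measurable_of_countable f) hK,
        lintegral_withDensity_eq_lintegral_mul _ hW hm2]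
      refine lintegral_congr fun ω => ?_
      rw [Pi.mul_apply, mul_comm]
    have hmom : ∀ m, ∫⁻ n : ℕ, ((n.descFactorial m : ℕ) : ℝ≥0∞) ∂ρ
        = c * ((volume (A a)).toNNReal : ℝ≥0∞) ^ m := by
      intro m
      rw [hρ]
      let g' : Fin r → ℕ → ℝ≥0∞ :=
        Function.update g a (fun n => ((n.descFactorial m : ℕ) : ℝ≥0∞))
      have hg'a : g' a = fun n => ((n.descFactorial m : ℕ) : ℝ≥0∞) := Function.update_self ..
      have hg'i : ∀ i, i ≠ a → g' i = g i := fun i hi => Function.update_of_ne hi ..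
      have e := ih g' (fun i hi => by
          have hia : i ≠ a := fun he => ha (he ▸ hi)
          rw [hg'i i hia]
          exact hg1 i (Finset.mem_insert_of_mem hi)) (fun i hi => by
          by_cases hia : i = a
          · subst hia
            exact ⟨m, hg'a⟩
          · rw [hg'i i hia]
            exact hg2 i (by rw [Finset.mem_insert]; push Not; exact ⟨hia, hi⟩))
      have e1 : ∀ ω, ∏ i, g' i ((inA N U (A i) ω).ncard)
          = (((inA N U (A a) ω).ncard.descFactorial m : ℕ) : ℝ≥0∞) * W ω := by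
        intro ω
        rw [← Finset.mul_prod_erase _ _ (Finset.mem_univ a), hg'a]
        congr 1
        refine Finset.prod_congr rfl fun i hi => ?_
        rw [hg'i i (Finset.ne_of_mem_erase hi)]
      simp_rw [e1] at e
      rw [e, ← Finset.mul_prod_erase _ _ (Finset.mem_univ a), hg'a,
        lintegral_descFactorial_poisson, mul_comm]
      congr 1
      refine Finset.prod_congr rfl fun i hi => ?_
      rw [hg'i i (Finset.ne_of_mem_erase hi)]
    have hfin := eq_smul_poisson ρ _ c hc hmom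
    have e2 := hρ (g a)
    rw [hfin, lintegral_smul_measure] at e2
    rw [← Finset.mul_prod_erase _ _ (Finset.mem_univ a), mul_comm]
    change _ = c * _
    rw [smul_eq_mul] at e2
    rw [e2]
    refine lintegral_congr fun ω => ?_
    rw [← Finset.mul_prod_erase _ _ (Finset.mem_univ a)]

/-- **The law of the counts**: the numbers of points in disjoint Borel sets of finite volume are
independent Poisson variables. -/
theorem counts_law (h : IsColouredPoisson P d p N U red) (h0 : 0 ≤ p) (h1 : p ≤ 1)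
    (m : ℕ) (A : Fin m → Set (EuclideanSpace ℝ (Fin d))) (k : Fin m → ℕ)
    (hA : ∀ i, MeasurableSet (A i)) (hv : ∀ i, volume (A i) ≠ ⊤)
    (hd : ∀ i j, i ≠ j → Disjoint (A i) (A j)) :
    P {ω | ∀ i, Set.encard {j : Idx d | Present N j ω ∧ pos U j ω ∈ A i} = k i} =
      ENNReal.ofReal (∏ i, Pool.Agent.Lib_helper33.ASM.poi (volume (A i)).toReal (k i)) := by
  have e := lintegral_mixed h h0 h1 hA hv hd Finset.univ
    (fun i => ({k i} : Set ℕ).indicator 1) (fun i _ => ⟨k i, rfl⟩)
    (fun i hi => absurd (Finset.mem_univ i) hi)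
  have hf : ∀ᵐ ω ∂P, ∀ i, (inA N U (A i) ω).Finite :=
    ae_all_iff.2 fun i => ae_finite_inA h h0 h1 (hA i) (hv i)
  have hmeas : MeasurableSet {ω | ∀ i, (inA N U (A i) ω).ncard = k i} := by
    rw [ofPred_forall]
    exact MeasurableSet.iInter fun i => measurable_ncard h (hA i) (measurableSet_singleton (k i))
  have e1 : P {ω | ∀ i, Set.encard {j : Idx d | Present N j ω ∧ pos U j ω ∈ A i} = k i}
      = P {ω | ∀ i, (inA N U (A i) ω).ncard = k i} := by
    refine measure_congr ?_
    filter_upwards [hf] with ω hω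
    apply propext
    change (∀ i, (inA N U (A i) ω).encard = k i) ↔ (∀ i, (inA N U (A i) ω).ncard = k i)
    refine forall_congr' fun i => ?_
    rw [← (hω i).cast_ncard_eq]
    exact_mod_cast Iff.rfl
  have e2 : ∀ ω, ∏ i, ({k i} : Set ℕ).indicator (1 : ℕ → ℝ≥0∞) ((inA N U (A i) ω).ncard)
      = {ω | ∀ i, (inA N U (A i) ω).ncard = k i}.indicator (1 : Ω → ℝ≥0∞) ω := by
    intro ω
    by_cases hω : ∀ i, (inA N U (A i) ω).ncard = k i
    · rw [indicator_of_mem (by exact hω)]
      refine Finset.prod_eq_one fun i _ => ?_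
      rw [indicator_of_mem (by exact hω i)]
      rfl
    · rw [indicator_of_notMem (by exact hω)]
      push Not at hω
      obtain ⟨i, hi⟩ := hω
      refine Finset.prod_eq_zero (Finset.mem_univ i) ?_
      rw [indicator_of_notMem (by exact hi)]
  simp_rw [e2] at e
  rw [lintegral_indicator_one hmeas] at e
  rw [e1, e, ENNReal.ofReal_prod_of_nonneg]
  · refine Finset.prod_congr rfl fun i _ => ?_
    rw [lintegral_indicator_one (measurableSet_singleton _), poissonMeasure_singleton]
    rfl
  · intro i _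
    unfold Pool.Agent.Lib_helper33.ASM.poi
    positivity

end

end Pool.Agent.PPP
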